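import Pool.Agent.Lib.MP_79a9b1_lc.Final

set_option autoImplicit false

/-!
# Deciding `μ(G) ≥ k` is hard for the existential theory of the reals

Outline of the proof. A sentence is translated into a system of equations `x + y = z`, `x y = z`
(`Front`), and this into a straight-line program with the operations `1 - x`, `x + y`, `x y` which
must have all its values in `(0, 1)` (`Bsys`); an effective bound for the residuals of unsolvable
systems (`Gap`, `Loj`) makes the second translation exact. The straight-line program becomes
a network (`Slp`, `Net`), whose rows are vectors in a space of negative curvature. Its graph
contains a frame: vertices `e0` and `e a`, one for each axis, which are pairwise nonadjacent.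
If the rank of a matrix in the definition of `μ` is at most the number of vertices of the frame, the
frame determines the matrix, which has the form `M = F D Fᵀ` with a diagonal matrix `D` with one
negative entry. The nonadjacent pairs of rows give equations `∑ Y ξ η = 1`, and the pure vertices
`p a` normalize the coordinates. So the corank `|A| + |X|` is possible if and only if
the network has a solution (`NetA`, `NetB`); every solution satisfies the strong Arnold property,
by elimination along the straight-line program (`RegMain`).
-/

namespace Pool.Agent.Results.MP_79a9b1_lc.ExistsRHard

open Pool.Agent.Lib.MP_79a9b1_lc

/-- The problem to decide, for a graph `G` and a natural number `k`, whether the Colin de Verdière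
invariant of `G` is at least `k`, is hard for the existential theory of the reals. -/
theorem result : ERHard fun _ G k => k ≤ mu G :=
  mu_hard

end Pool.Agent.Results.MP_79a9b1_lc.ExistsRHard
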